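import Pool.Agent.Results.MP_c19edd_an.CantorType

/-!
# Perturbed geometric achievement sets: basic facts

`x n = 2^{-n} + y n` with `|y n| ≤ ζ n / 8`, where `ζ (n + 1) ≤ ζ n / 2` and `2^n ζ n → 0`.
Adapted from the starting file `MP_c19edd_an.CantorType`.
-/

set_option autoImplicit false

open Set Filter Topology

namespace Pool.Agent.Y805.AS

/-- the standing hypotheses -/
structure Hyp (x ζ : ℕ → ℝ) : Prop where
  pos : ∀ n, 1 ≤ n → 0 < x n
  zpos : ∀ n, 0 < ζ n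
  half : ∀ n, ζ (n + 1) ≤ ζ n / 2
  bd : ∀ n, 1 ≤ n → |x n - 1 / 2 ^ n| ≤ ζ n / 8
  small : ∀ η : ℝ, 0 < η → ∃ n₀ : ℕ, ∀ n, n₀ ≤ n → ζ n ≤ η * (1 / 2 ^ n)

/-- The achievement set: all sums of `x n` over `n ∈ A`, `A` a set of positive integers. -/
def achSet (x : ℕ → ℝ) : Set ℝ :=
  {s : ℝ | ∃ A : Set ℕ, A ⊆ {n | 1 ≤ n} ∧ s = ∑' n, A.indicator x n}

/-- the tails `r_n = ∑_{k > n} x_k` -/
noncomputable def r (x : ℕ → ℝ) (n : ℕ) : ℝ := ∑' k, x (k + (n + 1))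

variable {x ζ : ℕ → ℝ}

theorem Hyp.half' (H : Hyp x ζ) (n k : ℕ) : ζ (n + k) ≤ ζ n / 2 ^ k := by
  induction k with
  | zero => simp
  | succ k ih =>
    have h := H.half (n + k)
    rw [← add_assoc, pow_succ, ← div_div]
    linarith

theorem Hyp.x_bounds (H : Hyp x ζ) (n : ℕ) :
    1 / 2 ^ (n + 1) - ζ (n + 1) / 8 ≤ x (n + 1) ∧ x (n + 1) ≤ 1 / 2 ^ (n + 1) + ζ (n + 1) / 8 := by
  have := abs_le.1 (H.bd (n + 1) (by omega))
  constructor <;> linarith [this.1, this.2]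

theorem Hyp.x_nonneg (H : Hyp x ζ) (n : ℕ) : 0 ≤ x (n + 1) := (H.pos _ (by omega)).le

theorem geo (n : ℕ) : HasSum (fun k : ℕ => (1 : ℝ) / 2 ^ (k + (n + 1))) (1 / 2 ^ n) := by
  have h := (hasSum_geometric_two' (1 / 2 ^ n : ℝ))
  convert h using 2 with k
  rw [pow_add, pow_succ]
  field_simp

theorem Hyp.hasSum_tail (H : Hyp x ζ) (n : ℕ) : HasSum (fun k => x (k + (n + 1))) (r x n) := by
  have h1 : Summable fun k : ℕ => (1 / 2 ^ n + ζ n) * (1 / 2 : ℝ) ^ k :=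
    summable_geometric_two.mul_left _
  refine (Summable.of_nonneg_of_le (fun k => ?_) (fun k => ?_) h1).hasSum
  · have := H.x_nonneg (k + n)
    rwa [show k + n + 1 = k + (n + 1) by ring] at this
  · have h2 := (H.x_bounds (k + n)).2
    rw [show k + n + 1 = k + (n + 1) by ring] at h2
    have h3 : ζ (k + (n + 1)) ≤ ζ n / 2 ^ k := by
      have h4 := H.half (k + n)
      have h5 := H.half' n k
      have h6 := H.zpos (k + n)
      rw [show k + n + 1 = k + (n + 1) by ring] at h4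
      rw [add_comm n k] at h5
      linarith
    have h7 : (1 : ℝ) / 2 ^ (k + (n + 1)) ≤ 1 / 2 ^ n * (1 / 2) ^ k := by
      rw [div_pow, one_pow, div_mul_div_comm, one_mul, ← pow_add]
      exact one_div_le_one_div_of_le (by positivity) (pow_le_pow_right₀ (by norm_num) (by omega))
    have h8 : (1 / 2 ^ n + ζ n) * (1 / 2 : ℝ) ^ k = 1 / 2 ^ n * (1 / 2) ^ k + ζ n / 2 ^ k := by
      rw [add_mul, div_pow, one_pow]; ring
    have h9 := H.zpos (k + (n + 1))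
    rw [h8]
    linarith

theorem Hyp.r_succ (H : Hyp x ζ) (n : ℕ) : r x n = x (n + 1) + r x (n + 1) := by
  have h := (H.hasSum_tail n).summable.tsum_eq_zero_add
  unfold r
  rw [h, zero_add]
  congr 1
  refine tsum_congr fun k => ?_
  congr 1
  ring

theorem Hyp.r_abs (H : Hyp x ζ) (n : ℕ) : |r x n - 1 / 2 ^ n| ≤ ζ n / 8 := by
  have h1 : HasSum (fun k => x (k + (n + 1)) - 1 / 2 ^ (k + (n + 1))) (r x n - 1 / 2 ^ n) :=
    (H.hasSum_tail n).sub (geo n)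
  have h2 : HasSum (fun k : ℕ => ζ n / 8 * (1 / 2 * (1 / 2 : ℝ) ^ k)) (ζ n / 8) := by
    have := (hasSum_geometric_two.mul_left (1 / 2 : ℝ)).mul_left (ζ n / 8)
    simpa using this
  have h3 : ∀ k, ‖x (k + (n + 1)) - 1 / 2 ^ (k + (n + 1))‖ ≤ ζ n / 8 * (1 / 2 * (1 / 2 : ℝ) ^ k) := by
    intro k
    rw [Real.norm_eq_abs]
    refine (H.bd _ (by omega)).trans ?_
    have h4 := H.half' n (k + 1)
    rw [show n + (k + 1) = k + (n + 1) by ring] at h4
    have h5 : ζ n / 8 * (1 / 2 * (1 / 2 : ℝ) ^ k) = ζ n / 2 ^ (k + 1) / 8 := by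
      rw [div_pow, one_pow, pow_succ]; field_simp
    rw [h5]
    linarith
  have h4 := tsum_of_norm_bounded h2 h3
  rwa [h1.tsum_eq, Real.norm_eq_abs] at h4

theorem Hyp.r_bounds (H : Hyp x ζ) (n : ℕ) :
    1 / 2 ^ n - ζ n / 8 ≤ r x n ∧ r x n ≤ 1 / 2 ^ n + ζ n / 8 := by
  have := abs_le.1 (H.r_abs n)
  constructor <;> linarith [this.1, this.2]

theorem Hyp.r_pos (H : Hyp x ζ) (n : ℕ) : 0 < r x n := by
  rw [H.r_succ]
  have h1 := H.pos (n + 1) (by omega)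
  have h2 : 0 ≤ r x (n + 1) := by
    rw [← (H.hasSum_tail (n + 1)).tsum_eq]
    refine tsum_nonneg fun k => ?_
    exact (H.pos _ (by omega)).le
  linarith

theorem Hyp.gap_le (H : Hyp x ζ) (n : ℕ) : x (n + 1) - r x (n + 1) ≤ ζ (n + 1) / 4 := by
  linarith [(H.x_bounds n).2, (H.r_bounds (n + 1)).1]

theorem Hyp.r_tendsto (H : Hyp x ζ) : Tendsto (r x) atTop (𝓝 0) := by
  have h2 : Tendsto (fun n : ℕ => (1 / 2 : ℝ) ^ n) atTop (𝓝 0) :=
    tendsto_pow_atTop_nhds_zero_of_lt_one (by norm_num) (by norm_num)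
  have h1 : Tendsto (fun n : ℕ => (1 + ζ 0) * (1 / 2 : ℝ) ^ n) atTop (𝓝 0) := by
    simpa using h2.const_mul (1 + ζ 0)
  refine squeeze_zero (fun n => (H.r_pos n).le) (fun n => ?_) h1
  have h3 := (H.r_bounds n).2
  have h4 := H.half' 0 n
  rw [zero_add] at h4
  have h5 := H.zpos n
  have h6 : (1 + ζ 0) * (1 / 2 : ℝ) ^ n = 1 / 2 ^ n + ζ 0 / 2 ^ n := by
    rw [div_pow, one_pow]; ring
  rw [h6]
  linarith

/-- positions of the left endpoints of the pieces of level `n`, indexed by `a < 2^n` -/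
noncomputable def p (x : ℕ → ℝ) : ℕ → ℕ → ℝ
  | 0, _ => 0
  | n + 1, a => p x n (a / 2) + ((a % 2 : ℕ) : ℝ) * x (n + 1)

theorem pow_idx (a m : ℕ) : a * 2 ^ (m + 1) = 2 * (a * 2 ^ m) := by
  rw [pow_succ]; ring

theorem p_even (n a : ℕ) : p x (n + 1) (2 * a) = p x n a := by
  rw [p]
  have h1 : 2 * a / 2 = a := by omega
  have h2 : 2 * a % 2 = 0 := by omega
  rw [h1, h2]
  simp

theorem p_odd (n a : ℕ) : p x (n + 1) (2 * a + 1) = p x n a + x (n + 1) := by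
  rw [p]
  have h1 : (2 * a + 1) / 2 = a := by omega
  have h2 : (2 * a + 1) % 2 = 1 := by omega
  rw [h1, h2]
  simp

theorem spread (H : Hyp x ζ) (n a : ℕ) : ∀ m c : ℕ, c < 2 ^ m →
    |p x (n + m) (a * 2 ^ m + c) - p x n a - (c : ℝ) / 2 ^ (n + m)|
      ≤ (ζ n - ζ (n + m)) / 8 := by
  intro m
  induction m with
  | zero =>
    intro c hc
    have : c = 0 := by simpa using hc
    subst this
    simp
  | succ m ih =>
    intro c hc
    have hc2 : c / 2 < 2 ^ m := by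
      rw [pow_succ] at hc; omega
    have h := ih (c / 2) hc2
    have h1 : (a * 2 ^ (m + 1) + c) / 2 = a * 2 ^ m + c / 2 := by
      rw [pow_idx]; omega
    have h2 : (a * 2 ^ (m + 1) + c) % 2 = c % 2 := by
      rw [pow_idx]; omega
    have h3 : p x (n + (m + 1)) (a * 2 ^ (m + 1) + c)
        = p x (n + m) (a * 2 ^ m + c / 2) + ((c % 2 : ℕ) : ℝ) * x (n + m + 1) := by
      rw [← add_assoc, p, h1, h2]
    have hc3 : (c : ℝ) = 2 * ((c / 2 : ℕ) : ℝ) + ((c % 2 : ℕ) : ℝ) := by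
      have : c = 2 * (c / 2) + c % 2 := (Nat.div_add_mod c 2).symm
      exact_mod_cast this
    have hmod : ((c % 2 : ℕ) : ℝ) = 0 ∨ ((c % 2 : ℕ) : ℝ) = 1 := by
      rcases Nat.mod_two_eq_zero_or_one c with h | h <;> rw [h] <;> simp
    have h4 : p x (n + (m + 1)) (a * 2 ^ (m + 1) + c) - p x n a - (c : ℝ) / 2 ^ (n + (m + 1))
        = (p x (n + m) (a * 2 ^ m + c / 2) - p x n a - ((c / 2 : ℕ) : ℝ) / 2 ^ (n + m))
          + ((c % 2 : ℕ) : ℝ) * (x (n + m + 1) - 1 / 2 ^ (n + m + 1)) := by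
      rw [h3, hc3, ← add_assoc, pow_succ (2 : ℝ)]
      field_simp
      ring
    rw [h4]
    refine (abs_add_le _ _).trans ?_
    have h5 : |((c % 2 : ℕ) : ℝ) * (x (n + m + 1) - 1 / 2 ^ (n + m + 1))| ≤ ζ (n + m + 1) / 8 := by
      have hp := H.zpos (n + m + 1)
      have hb := H.bd (n + m + 1) (by omega)
      rw [abs_mul]
      rcases hmod with h | h <;> rw [h]
      · simp only [abs_zero, zero_mul]; linarith
      · simpa using hb
    have h6 := H.half (n + m)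
    rw [← add_assoc]
    linarith

theorem spread' (H : Hyp x ζ) (n a m c : ℕ) (hc : c < 2 ^ m) :
    |p x (n + m) (a * 2 ^ m + c) - p x n a - (c : ℝ) / 2 ^ (n + m)| ≤ ζ n / 8 := by
  have h := spread H n a m c hc
  have hp := H.zpos (n + m)
  linarith

theorem contain (H : Hyp x ζ) (n a : ℕ) : ∀ m c : ℕ, c < 2 ^ m →
    p x n a ≤ p x (n + m) (a * 2 ^ m + c) ∧
    p x (n + m) (a * 2 ^ m + c) + r x (n + m) ≤ p x n a + r x n := by
  intro m
  induction m with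
  | zero =>
    intro c hc
    have : c = 0 := by simpa using hc
    subst this
    simp
  | succ m ih =>
    intro c hc
    have hc2 : c / 2 < 2 ^ m := by
      rw [pow_succ] at hc; omega
    have h := ih (c / 2) hc2
    have h1 : (a * 2 ^ (m + 1) + c) / 2 = a * 2 ^ m + c / 2 := by
      rw [pow_idx]; omega
    have h2 : (a * 2 ^ (m + 1) + c) % 2 = c % 2 := by
      rw [pow_idx]; omega
    have h3 : p x (n + (m + 1)) (a * 2 ^ (m + 1) + c)
        = p x (n + m) (a * 2 ^ m + c / 2) + ((c % 2 : ℕ) : ℝ) * x (n + m + 1) := by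
      rw [← add_assoc, p, h1, h2]
    have hr := H.r_succ (n + m)
    have hx := H.x_nonneg (n + m)
    rw [h3, ← add_assoc]
    have hmod : ((c % 2 : ℕ) : ℝ) = 0 ∨ ((c % 2 : ℕ) : ℝ) = 1 := by
      rcases Nat.mod_two_eq_zero_or_one c with h | h <;> rw [h] <;> simp
    rcases hmod with h4 | h4 <;> rw [h4] <;> constructor <;> linarith [h.1, h.2]

theorem first_desc (n a m : ℕ) : p x (n + m) (a * 2 ^ m) = p x n a := by
  induction m with
  | zero => simp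
  | succ m ih =>
    rw [← add_assoc, show a * 2 ^ (m + 1) = 2 * (a * 2 ^ m) by rw [pow_succ]; ring, p_even, ih]

theorem last_desc (H : Hyp x ζ) (n a m : ℕ) :
    p x (n + m) (a * 2 ^ m + (2 ^ m - 1)) + r x (n + m) = p x n a + r x n := by
  induction m with
  | zero => simp
  | succ m ih =>
    have h1 : 1 ≤ 2 ^ m := Nat.one_le_two_pow
    have h2 : a * 2 ^ (m + 1) + (2 ^ (m + 1) - 1) = 2 * (a * 2 ^ m + (2 ^ m - 1)) + 1 := by
      rw [pow_idx, pow_succ]; omega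
    rw [← add_assoc, h2, p_odd, add_assoc, ← H.r_succ, ih]

/-- the indices of the pieces of level `n` that meet the open interval `(u, v)` -/
noncomputable def A (x : ℕ → ℝ) (n : ℕ) (u v : ℝ) : Finset ℕ :=
  (Finset.range (2 ^ n)).filter (fun a => p x n a < v ∧ u < p x n a + r x n)

theorem mem_A (n : ℕ) (u v : ℝ) (a : ℕ) :
    a ∈ A x n u v ↔ a < 2 ^ n ∧ p x n a < v ∧ u < p x n a + r x n := by
  simp [A]

theorem A_parent (H : Hyp x ζ) (n m : ℕ) (u v u' v' : ℝ) (hu : u ≤ u') (hv : v' ≤ v) (e : ℕ)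
    (he : e ∈ A x (n + m) u' v') : e / 2 ^ m ∈ A x n u v := by
  rw [mem_A] at he ⊢
  have hp : 0 < 2 ^ m := by positivity
  have h1 : e = e / 2 ^ m * 2 ^ m + e % 2 ^ m := (Nat.div_add_mod' e (2 ^ m)).symm
  have h2 := contain H n (e / 2 ^ m) m (e % 2 ^ m) (Nat.mod_lt _ hp)
  rw [← h1] at h2
  refine ⟨?_, by linarith [h2.1], by linarith [h2.2]⟩
  rw [Nat.div_lt_iff_lt_mul hp, ← pow_add]
  exact he.1

/-- `p n i - p n a₁` is close to an odd multiple of `2^{-h}` -/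
def Bad (x ζ : ℕ → ℝ) (n a₁ i h : ℕ) : Prop :=
  ∃ m : ℤ, Odd m ∧ |p x n i - p x n a₁ - (m : ℝ) / 2 ^ h| ≤ 2 * ζ n

theorem z_le (H : Hyp x ζ) (n k : ℕ) : ζ (n + k) ≤ ζ n := by
  have h1 := H.half' n k
  have h2 : ζ n / 2 ^ k ≤ ζ n := div_le_self (H.zpos n).le (one_le_pow₀ (by norm_num))
  linarith

theorem z_le' (H : Hyp x ζ) (n k : ℕ) : ζ (n + k + 1) ≤ ζ n / 2 := by
  have h := z_le H n k
  have h2 := H.half (n + k)
  linarith

theorem Bad_unique (n a₁ i h h' Q : ℕ) (hh : h < h') (hQ : h' ≤ Q)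
    (hsmall : 4 * ζ n < 1 / 2 ^ Q) (hb : Bad x ζ n a₁ i h) (hb' : Bad x ζ n a₁ i h') : False := by
  obtain ⟨m, hm, h1⟩ := hb
  obtain ⟨m', hm', h1'⟩ := hb'
  obtain ⟨d, rfl⟩ : ∃ d, h' = h + (d + 1) := ⟨h' - h - 1, by omega⟩
  have h2 : |(m : ℝ) / 2 ^ h - (m' : ℝ) / 2 ^ (h + (d + 1))| ≤ 4 * ζ n := by
    rw [abs_le] at *
    constructor <;> linarith [h1.1, h1.2, h1'.1, h1'.2]
  have h3 : (m : ℝ) / 2 ^ h - (m' : ℝ) / 2 ^ (h + (d + 1))
      = ((m * 2 ^ (d + 1) - m' : ℤ) : ℝ) / 2 ^ (h + (d + 1)) := by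
    push_cast
    rw [pow_add]
    field_simp
  have hodd : Odd (m * 2 ^ (d + 1) - m') := by
    have : Even (m * 2 ^ (d + 1)) := by
      rw [pow_succ, ← mul_assoc]
      exact (even_two).mul_left _
    exact this.sub_odd hm'
  have hne : (m * 2 ^ (d + 1) - m') ≠ 0 := by
    intro h0
    rw [h0] at hodd
    exact absurd hodd (by decide)
  have h4 : (1 : ℝ) ≤ |((m * 2 ^ (d + 1) - m' : ℤ) : ℝ)| := by
    have := Int.one_le_abs hne
    exact_mod_cast this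
  have hp : (0 : ℝ) < 2 ^ (h + (d + 1)) := by positivity
  rw [h3, abs_div, abs_of_pos hp] at h2
  have h5 : (1 : ℝ) / 2 ^ (h + (d + 1)) ≤ |((m * 2 ^ (d + 1) - m' : ℤ) : ℝ)| / 2 ^ (h + (d + 1)) :=
    div_le_div_of_nonneg_right h4 hp.le
  have h6 : (1 : ℝ) / 2 ^ Q ≤ 1 / 2 ^ (h + (d + 1)) :=
    one_div_le_one_div_of_le hp (pow_le_pow_right₀ (by norm_num) hQ)
  linarith

/-- location of the gap of level `n + m + 1` -/
theorem gap_loc (H : Hyp x ζ) (n m a₁ c : ℕ) (hc : c < 2 ^ m) :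
    |p x (n + m) (a₁ * 2 ^ m + c) + r x (n + m + 1) - p x n a₁ -
      (2 * (c : ℝ) + 1) / 2 ^ (n + m + 1)| ≤ ζ n / 8 + ζ (n + m + 1) / 8 := by
  have h1 := spread' H n a₁ m c hc
  have h2 := H.r_bounds (n + m + 1)
  have h3 : (2 * (c : ℝ) + 1) / 2 ^ (n + m + 1) = (c : ℝ) / 2 ^ (n + m) + 1 / 2 ^ (n + m + 1) := by
    rw [pow_succ]; field_simp
  rw [h3]
  rw [abs_le] at *
  constructor <;> linarith [h1.1, h1.2, h2.1, h2.2]

end Pool.Agent.Y805.AS
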