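import Pool.Agent.Y805.AS.Step

/-!
# Perturbed geometric achievement sets are Cantor sets

Adapted from the starting file `MP_c19edd_an.CantorType`; the measure part is new.
-/

set_option autoImplicit false

open Set Filter Topology MeasureTheory

namespace Pool.Agent.Y805.AS

variable {x ζ : ℕ → ℝ}

theorem Hyp.ind_nonneg (H : Hyp x ζ) {B : Set ℕ} (hB : B ⊆ {n | 1 ≤ n}) (k : ℕ) :
    0 ≤ B.indicator x k := by
  by_cases hk : k ∈ B
  · rw [indicator_of_mem hk]
    exact (H.pos k (hB hk)).le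
  · rw [indicator_of_notMem hk]

theorem Hyp.ind_le (H : Hyp x ζ) (B : Set ℕ) (k : ℕ) : B.indicator x (k + 1) ≤ x (k + 1) := by
  by_cases hk : k + 1 ∈ B
  · rw [indicator_of_mem hk]
  · rw [indicator_of_notMem hk]
    exact H.x_nonneg k

theorem Hyp.summable_x1 (H : Hyp x ζ) : Summable fun k => x (k + 1) := (H.hasSum_tail 0).summable

theorem Hyp.summable_ind (H : Hyp x ζ) {B : Set ℕ} (hB : B ⊆ {n | 1 ≤ n}) :
    Summable (B.indicator x) := by
  refine (summable_nat_add_iff 1).1 ?_
  exact Summable.of_nonneg_of_le (fun k => H.ind_nonneg hB _) (fun k => H.ind_le B k) H.summable_x1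

theorem Hyp.tail_bounds (H : Hyp x ζ) {B : Set ℕ} (hB : B ⊆ {n | 1 ≤ n}) (n : ℕ) :
    0 ≤ ∑' k, B.indicator x (k + (n + 1)) ∧ ∑' k, B.indicator x (k + (n + 1)) ≤ r x n := by
  constructor
  · exact tsum_nonneg fun k => H.ind_nonneg hB _
  · rw [← (H.hasSum_tail n).tsum_eq]
    refine Summable.tsum_le_tsum (fun k => ?_)
      ((summable_nat_add_iff (n + 1)).2 (H.summable_ind hB)) (H.hasSum_tail n).summable
    have := H.ind_le B (k + n)
    rwa [show k + n + 1 = k + (n + 1) by ring] at this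

theorem cover (H : Hyp x ζ) (z : ℝ) (hz : z ∈ achSet x) (n : ℕ) :
    ∃ a, a < 2 ^ n ∧ p x n a ≤ z ∧ z ≤ p x n a + r x n := by
  obtain ⟨B, hB, rfl⟩ := hz
  have h : ∀ n, ∃ a, a < 2 ^ n ∧ p x n a = ∑ k ∈ Finset.range (n + 1), B.indicator x k := by
    intro n
    induction n with
    | zero =>
      refine ⟨0, by norm_num, ?_⟩
      have : (0 : ℕ) ∉ B := fun h => absurd (hB h) (by simp)
      simp [p, this]
    | succ n ih =>
      obtain ⟨a, ha, hp⟩ := ih
      by_cases hn : n + 1 ∈ B
      · refine ⟨2 * a + 1, by rw [pow_succ]; omega, ?_⟩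
        rw [p_odd, Finset.sum_range_succ, hp, indicator_of_mem hn]
      · refine ⟨2 * a, by rw [pow_succ]; omega, ?_⟩
        rw [p_even, Finset.sum_range_succ, hp, indicator_of_notMem hn, add_zero]
  obtain ⟨a, ha, hp⟩ := h n
  have hs := (H.summable_ind hB).sum_add_tsum_nat_add (n + 1)
  have ht := H.tail_bounds hB n
  refine ⟨a, ha, ?_, ?_⟩ <;> rw [hp] <;> linarith [ht.1, ht.2]

theorem Q_zero (H : Hyp x ζ) : Q x 0 := by
  intro c hc
  refine ⟨0, fun n _ u v huv hcard => ⟨u, v, le_rfl, ?_, le_rfl, ?_⟩⟩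
  · have : 0 < c * (1 / 2 ^ n) := by positivity
    linarith
  · intro z hz hzuv
    obtain ⟨a, ha, h1, h2⟩ := cover H z hz n
    have hmem : a ∈ A x n u v := by
      rw [mem_A]
      exact ⟨ha, by linarith [hzuv.2], by linarith [hzuv.1]⟩
    have : 0 < (A x n u v).card := Finset.card_pos.2 ⟨a, hmem⟩
    omega

theorem Q_all (H : Hyp x ζ) {g : ℝ} (hg0 : 0 < g) {B : ℕ}
    (hgap : ∀ n : ℕ, ∃ l, n ≤ l ∧ l < n + B ∧ g * ζ l ≤ x l - r x l) (D : ℕ) : Q x D := by
  induction D with
  | zero => exact Q_zero H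
  | succ D ih => exact Q_succ H hg0 hgap D ih

/-- every open interval contains an open interval disjoint from the achievement set -/
theorem nowhere_dense (H : Hyp x ζ) {g : ℝ} (hg0 : 0 < g) {B : ℕ}
    (hgap : ∀ n : ℕ, ∃ l, n ≤ l ∧ l < n + B ∧ g * ζ l ≤ x l - r x l) (u v : ℝ) (huv : u < v) :
    ∃ u' v', u ≤ u' ∧ u' < v' ∧ v' ≤ v ∧ ∀ z ∈ achSet x, z ∉ Ioo u' v' := by
  classical
  have hl : 0 < v - u := by linarith
  obtain ⟨D, hD⟩ := exists_nat_gt (6 / (v - u))
  obtain ⟨n₀, hn₀⟩ := Q_all H hg0 hgap D 1 one_pos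
  obtain ⟨n₁, hn₁⟩ := pow_unbounded_of_one_lt (1 / (v - u)) (by norm_num : (1 : ℝ) < 2)
  obtain ⟨n₂, hn₂⟩ := H.small 1 one_pos
  set n := max n₀ (max n₁ n₂) with hn
  have h2n : (0 : ℝ) < 2 ^ n := by positivity
  have hzn : ζ n ≤ 1 * (1 / 2 ^ n) := hn₂ n ((le_max_right _ _).trans (le_max_right _ _))
  have hbig : 1 ≤ (v - u) * 2 ^ n := by
    have h1 : (2 : ℝ) ^ n₁ ≤ 2 ^ n :=
      pow_le_pow_right₀ (by norm_num) ((le_max_left _ _).trans (le_max_right _ _))
    have h2 : 1 / (v - u) < 2 ^ n := lt_of_lt_of_le hn₁ h1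
    rw [div_lt_iff₀ hl] at h2
    linarith
  set N := ⌊(v - u) * 2 ^ n⌋₊ with hN
  have hN1 : (N : ℝ) ≤ (v - u) * 2 ^ n := Nat.floor_le (by positivity)
  have hN2 : (v - u) * 2 ^ n < N + 1 := Nat.lt_floor_add_one _
  have hN3 : 1 ≤ N := by rw [hN]; exact (Nat.one_le_floor_iff _).2 hbig
  have hN3' : (1 : ℝ) ≤ N := by exact_mod_cast hN3
  by_contra hcon
  -- every window is met by more than `D` pieces
  have hwin : ∀ j ∈ Finset.range N,
      D + 1 ≤ (A x n (u + j / 2 ^ n) (u + (j + 1) / 2 ^ n)).card := by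
    intro j hj
    by_contra hlt
    push Not at hlt
    have hj' : (j : ℝ) + 1 ≤ N := by
      have := Finset.mem_range.1 hj
      exact_mod_cast this
    have h1 : ((j : ℝ) + 1) / 2 ^ n ≤ v - u := by
      rw [div_le_iff₀ h2n]; linarith
    have h2 : (0 : ℝ) ≤ (j : ℝ) / 2 ^ n := by positivity
    obtain ⟨u', v', h3, h4, h5, h6⟩ := hn₀ n (le_max_left _ _) (u + j / 2 ^ n) (u + (j + 1) / 2 ^ n)
      (by rw [add_div]; linarith) (by omega)
    exact hcon ⟨u', v', by linarith, h4, by linarith, h6⟩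
  have hcount := Finset.card_mul_le_card_mul (s := Finset.range N) (t := Finset.range (2 ^ n))
    (fun (j a : ℕ) => p x n a < u + ((j : ℝ) + 1) / 2 ^ n ∧ u + (j : ℝ) / 2 ^ n < p x n a + r x n)
    (m := D + 1) (n := 3) (fun j hj => hwin j hj) (by
      intro a _
      set s := Finset.bipartiteBelow (fun (j a : ℕ) => p x n a < u + ((j : ℝ) + 1) / 2 ^ n ∧
        u + (j : ℝ) / 2 ^ n < p x n a + r x n) (Finset.range N) a with hs
      by_cases hne : s.Nonempty
      · have hsub : s ⊆ Finset.Icc (s.min' hne) (s.min' hne + 2) := by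
          intro j hj
          rw [Finset.mem_Icc]
          refine ⟨Finset.min'_le _ _ hj, ?_⟩
          have hm := Finset.min'_mem s hne
          generalize s.min' hne = i at *
          rw [hs, Finset.mem_bipartiteBelow] at hm hj
          by_contra hij
          push Not at hij
          have hij' : (i : ℝ) + 3 ≤ j := by exact_mod_cast hij
          have h1 : ((i : ℝ) + 3) / 2 ^ n ≤ j / 2 ^ n := div_le_div_of_nonneg_right hij' h2n.le
          have h2 : ((i : ℝ) + 3) / 2 ^ n = (i + 1) / 2 ^ n + 2 * (1 / 2 ^ n) := by ring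
          have h3 := H.r_bounds n
          have h5 : (0 : ℝ) < 1 / 2 ^ n := by positivity
          rw [h2] at h1
          linarith [hm.2.1, hj.2.2, h3.2]
        calc s.card ≤ (Finset.Icc (s.min' hne) (s.min' hne + 2)).card := Finset.card_le_card hsub
          _ = 3 := by rw [Nat.card_Icc]; omega
      · rw [Finset.not_nonempty_iff_eq_empty] at hne
        rw [hne]; simp)
  rw [Finset.card_range, Finset.card_range] at hcount
  have hcount' : (N : ℝ) * (D + 1) ≤ 2 ^ n * 3 := by exact_mod_cast hcount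
  have h1 : (v - u) * 2 ^ n ≤ 2 * N := by linarith
  have h2 : 6 < (D : ℝ) * (v - u) := by rwa [div_lt_iff₀ hl] at hD
  have h3 : (v - u) * 2 ^ n * (D + 1) ≤ 2 * N * (D + 1) :=
    mul_le_mul_of_nonneg_right h1 (by positivity)
  have h4 : 6 * 2 ^ n < (D : ℝ) * (v - u) * 2 ^ n := mul_lt_mul_of_pos_right h2 h2n
  have h5 : 0 < (v - u) * 2 ^ n := by positivity
  linarith

/-! ### Compactness, no isolated points -/

noncomputable def Φ (x : ℕ → ℝ) (ω : ℕ → Bool) : ℝ := ∑' k, (if ω k then x (k + 1) else 0)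

theorem Φ_cont (H : Hyp x ζ) : Continuous (Φ x) := by
  refine continuous_tsum (u := fun k => x (k + 1)) (fun k => ?_) H.summable_x1 (fun k ω => ?_)
  · have h1 : Continuous fun ω : ℕ → Bool => ω k := continuous_apply k
    have h2 : Continuous fun b : Bool => (if b then x (k + 1) else 0 : ℝ) :=
      continuous_of_discreteTopology
    exact h2.comp h1
  · split_ifs
    · rw [Real.norm_eq_abs, abs_of_nonneg (H.x_nonneg _)]
    · simpa using H.x_nonneg k

theorem range_Φ (H : Hyp x ζ) : range (Φ x) = achSet x := by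
  classical
  ext z
  constructor
  · rintro ⟨ω, rfl⟩
    have hB : {n : ℕ | 1 ≤ n ∧ ω (n - 1) = true} ⊆ {n | 1 ≤ n} := fun n hn => hn.1
    refine ⟨{n | 1 ≤ n ∧ ω (n - 1) = true}, hB, ?_⟩
    have h := (H.summable_ind hB).tsum_eq_zero_add
    rw [h]
    simp only [Φ]
    rw [indicator_of_notMem (by simp)]
    rw [zero_add]
    refine tsum_congr fun k => ?_
    by_cases hk : ω k = true
    · rw [if_pos hk, indicator_of_mem]
      exact ⟨by omega, by simpa using hk⟩
    · rw [if_neg hk, indicator_of_notMem]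
      intro h
      exact hk (by simpa using h.2)
  · rintro ⟨B, hB, rfl⟩
    refine ⟨fun k => decide (k + 1 ∈ B), ?_⟩
    have h := (H.summable_ind hB).tsum_eq_zero_add
    rw [h]
    have h0 : (0 : ℕ) ∉ B := fun h => absurd (hB h) (by simp)
    rw [indicator_of_notMem h0, zero_add]
    simp only [Φ]
    refine tsum_congr fun k => ?_
    by_cases hk : k + 1 ∈ B
    · simp [hk]
    · simp [hk]

theorem E_compact (H : Hyp x ζ) : IsCompact (achSet x) := by
  rw [← range_Φ H]
  exact isCompact_range (Φ_cont H)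

theorem E_nonempty (H : Hyp x ζ) : (achSet x).Nonempty := by
  rw [← range_Φ H]
  exact range_nonempty _

theorem E_perfect (H : Hyp x ζ) (z : ℝ) (hz : z ∈ achSet x) (ε : ℝ) (hε : 0 < ε) :
    ∃ y ∈ achSet x, y ≠ z ∧ |y - z| < ε := by
  rw [← range_Φ H] at hz
  obtain ⟨ω, rfl⟩ := hz
  -- flip a far coordinate
  have h0 : Tendsto (fun k => x (k + 1)) atTop (𝓝 0) := H.summable_x1.tendsto_atTop_zero
  obtain ⟨k, hk⟩ := ((tendsto_order.1 h0).2 ε hε).exists
  have hxk : 0 < x (k + 1) := H.pos _ (by omega)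
  set ω' : ℕ → Bool := Function.update ω k (!ω k) with hω'
  have hsum : ∀ ω : ℕ → Bool, Summable fun j => (if ω j then x (j + 1) else 0 : ℝ) := by
    intro ω
    refine Summable.of_nonneg_of_le (fun j => ?_) (fun j => ?_) H.summable_x1
    · split_ifs
      · exact H.x_nonneg _
      · exact le_rfl
    · split_ifs
      · exact le_rfl
      · exact H.x_nonneg _
  have hdiff : Φ x ω' - Φ x ω =
      (if ω' k then x (k + 1) else 0) - (if ω k then x (k + 1) else 0) := by
    unfold Φ
    rw [← (hsum ω').tsum_sub (hsum ω)]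
    rw [tsum_eq_single k]
    intro j hj
    rw [hω', Function.update_of_ne hj, sub_self]
  refine ⟨Φ x ω', by rw [← range_Φ H]; exact mem_range_self _, ?_, ?_⟩
  · intro h
    rw [h, sub_self, hω', Function.update_self] at hdiff
    cases hb : ω k <;> simp [hb] at hdiff <;> linarith
  · rw [hdiff, hω', Function.update_self]
    cases hb : ω k <;> simp [abs_of_pos hxk, hk]

/-- The Cantor set criterion. -/
theorem cantor (H : Hyp x ζ) {g : ℝ} (hg0 : 0 < g) {B : ℕ}
    (hgap : ∀ n : ℕ, ∃ l, n ≤ l ∧ l < n + B ∧ g * ζ l ≤ x l - r x l) :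
    Nonempty (achSet x ≃ₜ cantorSet) := by
  have h : Results.MP_c19edd_an.CantorType.Good (achSet x) := by
    refine ⟨E_compact H, E_nonempty H, E_perfect H, fun u v huv => ?_⟩
    obtain ⟨u', v', h1, h2, h3, h4⟩ := nowhere_dense H hg0 hgap u v huv
    refine ⟨(u' + v') / 2, by linarith, by linarith, fun h => h4 _ h ⟨by linarith, by linarith⟩⟩
  exact h.homeo

/-! ### The measure -/

/-- left endpoints of pieces are in the achievement set -/
theorem p_mem (H : Hyp x ζ) (n : ℕ) : ∀ a, a < 2 ^ n → ∃ B : Set ℕ, B ⊆ {k | 1 ≤ k ∧ k ≤ n} ∧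
    p x n a = ∑ k ∈ Finset.range (n + 1), B.indicator x k := by
  classical
  induction n with
  | zero =>
    intro a ha
    refine ⟨∅, by simp, ?_⟩
    simp [p]
  | succ n ih =>
    intro a ha
    obtain ⟨B, hB, hp⟩ := ih (a / 2) (by rw [pow_succ] at ha; omega)
    have hn : n + 1 ∉ B := fun h => by have := (hB h).2; omega
    rcases Nat.mod_two_eq_zero_or_one a with h | h
    · refine ⟨B, fun k hk => ⟨(hB hk).1, (hB hk).2.trans (by omega)⟩, ?_⟩
      rw [p, h, hp, Finset.sum_range_succ _ (n + 1), indicator_of_notMem hn]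
      simp
    · refine ⟨insert (n + 1) B, ?_, ?_⟩
      · intro k hk
        rcases hk with rfl | hk
        · exact ⟨by omega, le_rfl⟩
        · exact ⟨(hB hk).1, (hB hk).2.trans (by omega)⟩
      · rw [p, h, hp, Finset.sum_range_succ _ (n + 1), indicator_of_mem (mem_insert _ _)]
        have : ∑ k ∈ Finset.range (n + 1), (insert (n + 1) B).indicator x k =
            ∑ k ∈ Finset.range (n + 1), B.indicator x k := by
          refine Finset.sum_congr rfl fun k hk => ?_
          have hk' : k ≠ n + 1 := by have := Finset.mem_range.1 hk; omega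
          by_cases hkB : k ∈ B
          · rw [indicator_of_mem hkB, indicator_of_mem (mem_insert_of_mem _ hkB)]
          · rw [indicator_of_notMem hkB, indicator_of_notMem]
            intro h
            rcases h with h | h
            · exact hk' h
            · exact hkB h
        rw [this]
        simp

theorem p_mem' (H : Hyp x ζ) (n a : ℕ) (ha : a < 2 ^ n) : p x n a ∈ achSet x := by
  obtain ⟨B, hB, hp⟩ := p_mem H n a ha
  refine ⟨B, fun k hk => (hB hk).1, ?_⟩
  rw [hp, tsum_eq_sum]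
  intro k hk
  refine indicator_of_notMem (fun h => hk ?_) x
  have := (hB h).2
  exact Finset.mem_range.2 (by omega)

/-- the union of the descendants of the first piece of level `N`, `n` levels below -/
def F (x : ℕ → ℝ) (N n : ℕ) : Set ℝ :=
  ⋃ c ∈ Finset.range (2 ^ n), Icc (p x (N + n) c) (p x (N + n) c + r x (N + n))

theorem F_sub (H : Hyp x ζ) (N n : ℕ) : F x N (n + 1) ⊆ F x N n := by
  intro z hz
  simp only [F, mem_iUnion, Finset.mem_range, exists_prop] at hz ⊢
  obtain ⟨c, hc, h1, h2⟩ := hz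
  refine ⟨c / 2, by rw [pow_succ] at hc; omega, ?_⟩
  have h := contain H (N + n) (c / 2) 1 (c % 2) (Nat.mod_lt _ (by norm_num))
  rw [pow_one, Nat.div_add_mod' c 2] at h
  exact ⟨h.1.trans h1, h2.trans h.2⟩

theorem F_cov (H : Hyp x ζ) (N n : ℕ) : F x N n ⊆ F x N (n + 1) ∪
    ⋃ c ∈ Finset.range (2 ^ n), Ioo (p x (N + n) c + r x (N + n + 1))
      (p x (N + n) c + x (N + n + 1)) := by
  intro z hz
  simp only [F, mem_iUnion, Finset.mem_range, exists_prop] at hz
  obtain ⟨c, hc, h1, h2⟩ := hz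
  rw [H.r_succ] at h2
  by_cases h3 : z ≤ p x (N + n) c + r x (N + n + 1)
  · left
    simp only [F, mem_iUnion, Finset.mem_range, exists_prop]
    refine ⟨2 * c, by rw [pow_succ]; omega, ?_⟩
    rw [← add_assoc, p_even]
    exact ⟨h1, h3⟩
  by_cases h4 : p x (N + n) c + x (N + n + 1) ≤ z
  · left
    simp only [F, mem_iUnion, Finset.mem_range, exists_prop]
    refine ⟨2 * c + 1, by rw [pow_succ]; omega, ?_⟩
    rw [← add_assoc, p_odd]
    exact ⟨h4, by linarith⟩
  · right
    simp only [mem_iUnion, Finset.mem_range, exists_prop]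
    exact ⟨c, hc, not_le.1 h3, not_le.1 h4⟩

/-- the length of the gaps of level `n + 1` -/
noncomputable def gam (x : ℕ → ℝ) (n : ℕ) : ℝ := max 0 (x (n + 1) - r x (n + 1))

theorem gam_nonneg (n : ℕ) : 0 ≤ gam x n := le_max_left _ _

theorem F_vol (H : Hyp x ζ) (N n : ℕ) : volume (F x N n) ≤
    volume (F x N (n + 1)) + ENNReal.ofReal (2 ^ n * gam x (N + n)) := by
  have h1 : volume (⋃ c ∈ Finset.range (2 ^ n), Ioo (p x (N + n) c + r x (N + n + 1))
      (p x (N + n) c + x (N + n + 1))) ≤ ENNReal.ofReal (2 ^ n * gam x (N + n)) := by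
    refine (measure_biUnion_finset_le _ _).trans ?_
    calc ∑ c ∈ Finset.range (2 ^ n), volume (Ioo (p x (N + n) c + r x (N + n + 1))
            (p x (N + n) c + x (N + n + 1)))
        ≤ ∑ _c ∈ Finset.range (2 ^ n), ENNReal.ofReal (gam x (N + n)) := by
          refine Finset.sum_le_sum fun c _ => ?_
          rw [Real.volume_Ioo]
          refine ENNReal.ofReal_le_ofReal ?_
          have := le_max_right 0 (x (N + n + 1) - r x (N + n + 1))
          unfold gam
          linarith
      _ = ENNReal.ofReal (2 ^ n * gam x (N + n)) := by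
          rw [Finset.sum_const, Finset.card_range, ENNReal.ofReal_mul (by positivity),
            nsmul_eq_mul]
          congr 1
          rw [ENNReal.ofReal_pow (by norm_num)]
          norm_num
  calc volume (F x N n) ≤ volume (F x N (n + 1) ∪
        ⋃ c ∈ Finset.range (2 ^ n), Ioo (p x (N + n) c + r x (N + n + 1))
          (p x (N + n) c + x (N + n + 1))) := measure_mono (F_cov H N n)
    _ ≤ _ := (measure_union_le _ _).trans (add_le_add_right h1 _)

theorem F_inter (H : Hyp x ζ) (N : ℕ) : ⋂ n, F x N n ⊆ achSet x := by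
  intro z hz
  rw [mem_iInter] at hz
  have hcl : IsClosed (achSet x) := (E_compact H).isClosed
  rw [← hcl.closure_eq, Metric.mem_closure_iff]
  intro ε hε
  obtain ⟨n₀, hn₀⟩ := ((tendsto_order.1 H.r_tendsto).2 ε hε).exists_forall_of_atTop
  have h := hz n₀
  simp only [F, mem_iUnion, Finset.mem_range, exists_prop] at h
  obtain ⟨c, hc, h1, h2⟩ := h
  refine ⟨p x (N + n₀) c, p_mem' H _ _ (lt_of_lt_of_le hc ?_), ?_⟩
  · exact Nat.pow_le_pow_right (by norm_num) (by omega)
  · have := hn₀ (N + n₀) (by omega)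
    rw [Real.dist_eq, abs_of_nonneg (by linarith)]
    linarith

theorem F_closed (N n : ℕ) : IsClosed (F x N n) :=
  (Finset.range (2 ^ n)).finite_toSet.isClosed_biUnion fun _ _ => isClosed_Icc

theorem F_anti (H : Hyp x ζ) (N : ℕ) : Antitone (F x N) := antitone_nat_of_succ_le (F_sub H N)

/-- Lower bound of the measure of the achievement set. -/
theorem measure_ge (H : Hyp x ζ) (N : ℕ) (S : ℝ) (hS0 : 0 ≤ S) (hSr : S ≤ r x N)
    (hsum : ∀ n, ∑ i ∈ Finset.range n, 2 ^ i * gam x (N + i) ≤ S) :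
    ENNReal.ofReal (r x N - S) ≤ volume (achSet x) := by
  -- lower bound of the measures
  have key : ∀ n, ENNReal.ofReal (r x N) ≤ volume (F x N n) +
      ENNReal.ofReal (∑ i ∈ Finset.range n, 2 ^ i * gam x (N + i)) := by
    intro n
    induction n with
    | zero =>
      have : F x N 0 = Icc (p x N 0) (p x N 0 + r x N) := by simp [F]
      rw [this, Real.volume_Icc]
      simp
    | succ n ih =>
      refine ih.trans ?_
      have h1 := F_vol H N n
      have h2 : 0 ≤ ∑ i ∈ Finset.range n, 2 ^ i * gam x (N + i) :=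
        Finset.sum_nonneg fun i _ => mul_nonneg (by positivity) (gam_nonneg _)
      have h3 : 0 ≤ 2 ^ n * gam x (N + n) := mul_nonneg (by positivity) (gam_nonneg _)
      rw [Finset.sum_range_succ, ENNReal.ofReal_add h2 h3, ← add_assoc, add_right_comm]
      exact add_le_add_left h1 _
  have hlow : ∀ n, ENNReal.ofReal (r x N - S) ≤ volume (F x N n) := by
    intro n
    have h1 := key n
    have h2 : ENNReal.ofReal (∑ i ∈ Finset.range n, 2 ^ i * gam x (N + i)) ≤
        ENNReal.ofReal S := ENNReal.ofReal_le_ofReal (hsum n)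
    have h4 : ENNReal.ofReal (r x N - S) + ENNReal.ofReal S ≤
        volume (F x N n) + ENNReal.ofReal S := by
      rw [← ENNReal.ofReal_add (by linarith) hS0, sub_add_cancel]
      exact h1.trans (add_le_add_right h2 _)
    exact (ENNReal.add_le_add_iff_right ENNReal.ofReal_ne_top).1 h4
  have hfin : ∃ n, volume (F x N n) ≠ ⊤ := by
    refine ⟨0, ?_⟩
    have : F x N 0 = Icc (p x N 0) (p x N 0 + r x N) := by simp [F]
    rw [this, Real.volume_Icc]
    exact ENNReal.ofReal_ne_top
  have htend := tendsto_measure_iInter_atTop (μ := volume) (s := F x N)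
    (fun n => (F_closed N n).measurableSet.nullMeasurableSet) (F_anti H N) hfin
  have h5 : ENNReal.ofReal (r x N - S) ≤ volume (⋂ n, F x N n) :=
    ge_of_tendsto' htend fun n => hlow n
  exact h5.trans (measure_mono (F_inter H N))

/-- If `2^n ζ n` is summable, the achievement set has positive measure. -/
theorem measure_pos (H : Hyp x ζ) (hs : Summable fun n => 2 ^ n * ζ n) :
    0 < volume (achSet x) := by
  have hz : ∀ n, 0 ≤ 2 ^ n * ζ n := fun n => mul_nonneg (by positivity) (H.zpos n).le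
  -- choice of the level
  obtain ⟨N, hN1, hN2⟩ : ∃ N : ℕ, ζ N ≤ 1 * (1 / 2 ^ N) ∧
      ∑' k, 2 ^ (k + N) * ζ (k + N) < 1 := by
    obtain ⟨n₀, hn₀⟩ := H.small 1 one_pos
    have h := tendsto_sum_nat_add (fun n => 2 ^ n * ζ n)
    obtain ⟨n₁, hn₁⟩ := ((tendsto_order.1 h).2 1 one_pos).exists_forall_of_atTop
    exact ⟨max n₀ n₁, hn₀ _ (le_max_left _ _), hn₁ _ (le_max_right _ _)⟩
  have hsN : Summable fun k => 2 ^ (k + N) * ζ (k + N) := (summable_nat_add_iff N).2 hs
  have hT : (0 : ℝ) < 1 / 2 ^ N := by positivity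
  have hsum : ∀ n, ∑ i ∈ Finset.range n, 2 ^ i * gam x (N + i) ≤ 1 / 2 ^ N / 8 := by
    intro n
    have h0 : ∑ i ∈ Finset.range n, 2 ^ i * gam x (N + i) ≤
        ∑ i ∈ Finset.range n, 2 ^ i * (ζ (N + i + 1) / 4) := by
      refine Finset.sum_le_sum fun i _ => mul_le_mul_of_nonneg_left ?_ (by positivity)
      exact max_le (by linarith [H.zpos (N + i + 1)]) (H.gap_le (N + i))
    refine h0.trans ?_
    have h1 : ∑ i ∈ Finset.range n, 2 ^ i * (ζ (N + i + 1) / 4) =
        1 / 2 ^ N / 8 * ∑ i ∈ Finset.range n, 2 ^ (i + 1 + N) * ζ (i + 1 + N) := by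
      rw [Finset.mul_sum]
      refine Finset.sum_congr rfl fun i _ => ?_
      rw [show i + 1 + N = N + i + 1 by ring, pow_succ, pow_add]
      field_simp
      ring
    have h2 : ∑ i ∈ Finset.range n, 2 ^ (i + 1 + N) * ζ (i + 1 + N) ≤
        ∑' k, 2 ^ (k + N) * ζ (k + N) := by
      calc ∑ i ∈ Finset.range n, 2 ^ (i + 1 + N) * ζ (i + 1 + N)
          ≤ ∑ i ∈ Finset.range (n + 1), 2 ^ (i + N) * ζ (i + N) := by
            rw [Finset.sum_range_succ']
            have := hz (0 + N)
            linarith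
        _ ≤ _ := hsN.sum_le_tsum _ fun i _ => hz _
    rw [h1]
    have h3 : (0 : ℝ) < 1 / 2 ^ N / 8 := by positivity
    calc _ ≤ 1 / 2 ^ N / 8 * 1 := mul_le_mul_of_nonneg_left (h2.trans hN2.le) h3.le
      _ = _ := mul_one _
  have hr := (H.r_bounds N).1
  refine lt_of_lt_of_le ?_ (measure_ge H N (1 / 2 ^ N / 8) (by positivity) (by linarith) hsum)
  rw [ENNReal.ofReal_pos]
  linarith

/-- Kakeya: without gaps the achievement set is an interval. -/
theorem interval (H : Hyp x ζ) (h : ∀ n, x (n + 1) ≤ r x (n + 1)) :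
    achSet x = Icc 0 (r x 0) := by
  refine Subset.antisymm ?_ ?_
  · intro z hz
    obtain ⟨a, ha, h1, h2⟩ := cover H z hz 0
    have ha0 : a = 0 := by simpa using ha
    subst ha0
    simp only [p] at h1 h2
    exact ⟨h1, by linarith⟩
  · have hF : ∀ n, Icc 0 (r x 0) ⊆ F x 0 n := by
      intro n
      induction n with
      | zero => intro z hz; simpa [F, p] using hz
      | succ n ih =>
        intro z hz
        rcases F_cov H 0 n (ih hz) with h1 | h1
        · exact h1
        · simp only [mem_iUnion, Finset.mem_range, exists_prop] at h1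
          obtain ⟨c, -, h2, h3⟩ := h1
          linarith [h (0 + n)]
    exact (subset_iInter hF).trans (F_inter H 0)

end Pool.Agent.Y805.AS
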