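import Pool.Agent.Y805.AS.Base

/-!
# The pieces meeting a gap

Adapted from the starting file `MP_c19edd_an.CantorType`.
-/

set_option autoImplicit false

open Set Filter Topology

namespace Pool.Agent.Y805.AS

variable {x ζ : ℕ → ℝ}

theorem gap_own (H : Hyp x ζ) (n m L a₁ c : ℕ) (hc : c < 2 ^ m)
    (hsmall : (ζ n) < 1 / 2 ^ (n + m + 1)) (e : ℕ)
    (he : e ∈ A x (n + m + 1 + L) (p x (n + m) (a₁ * 2 ^ m + c) + r x (n + m + 1))
      (p x (n + m) (a₁ * 2 ^ m + c) + x (n + m + 1)))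
    (hanc : e / 2 ^ L / 2 ^ (m + 1) = a₁) : False := by
  have h1 := A_parent H (n + m + 1) L _ _ _ _ le_rfl le_rfl e he
  generalize e / 2 ^ L = f at *
  rw [mem_A] at h1
  obtain ⟨-, h2, h3⟩ := h1
  have hf : f = a₁ * 2 ^ (m + 1) + f % 2 ^ (m + 1) := by
    have := (Nat.div_add_mod' f (2 ^ (m + 1))).symm
    rw [hanc] at this
    exact this
  have hlt : f % 2 ^ (m + 1) < 2 ^ (m + 1) := Nat.mod_lt _ (by positivity)
  generalize f % 2 ^ (m + 1) = f0 at *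
  have hs := spread' H n a₁ (m + 1) f0 hlt
  rw [← hf, ← add_assoc] at hs
  -- the two children
  have hc0 : 2 * c < 2 ^ (m + 1) := by rw [pow_succ]; omega
  have hc1 : 2 * c + 1 < 2 ^ (m + 1) := by rw [pow_succ]; omega
  have hi0 : a₁ * 2 ^ (m + 1) + 2 * c = 2 * (a₁ * 2 ^ m + c) := by rw [pow_idx]; ring
  have hi1 : a₁ * 2 ^ (m + 1) + (2 * c + 1) = 2 * (a₁ * 2 ^ m + c) + 1 := by rw [pow_idx]; ring
  have hs0 := spread' H n a₁ (m + 1) (2 * c) hc0
  have hs1 := spread' H n a₁ (m + 1) (2 * c + 1) hc1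
  rw [hi0, ← add_assoc, p_even] at hs0
  rw [hi1, ← add_assoc, p_odd] at hs1
  rw [abs_le] at hs hs0 hs1
  push_cast at hs0 hs1
  have hp2 : (0 : ℝ) < 2 ^ (n + m + 1) := by positivity
  rcases lt_trichotomy f0 (2 * c) with h | h | h
  · -- strictly left
    have h4 : (f0 : ℝ) + 1 ≤ 2 * c := by exact_mod_cast h
    have h5 : ((f0 : ℝ) + 1) / 2 ^ (n + m + 1) ≤ 2 * c / 2 ^ (n + m + 1) :=
      div_le_div_of_nonneg_right h4 hp2.le
    rw [add_div] at h5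
    linarith [hs.2, hs0.1]
  · subst h
    rw [hf, hi0, p_even] at h3
    exact lt_irrefl _ h3
  · rcases eq_or_lt_of_le (Nat.succ_le_of_lt h) with h | h
    · have h' : f0 = 2 * c + 1 := h.symm
      subst h'
      rw [hf, hi1, p_odd] at h2
      exact lt_irrefl _ h2
    · have h4 : (2 * (c : ℝ) + 1) + 1 ≤ f0 := by exact_mod_cast h
      have h5 : ((2 * (c : ℝ) + 1) + 1) / 2 ^ (n + m + 1) ≤ f0 / 2 ^ (n + m + 1) :=
        div_le_div_of_nonneg_right h4 hp2.le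
      rw [add_div] at h5
      linarith [hs.1, hs1.2]

/-- if two pieces with the same ancestor meet the gap, the ancestor is badly placed -/
theorem gap_two (H : Hyp x ζ) (n m L a₁ c i : ℕ) (hc : c < 2 ^ m)
    (hgd : 0 ≤ x (n + m + 1) - r x (n + m + 1))
    (hsmall : 4 * (ζ n) < 1 / 2 ^ (n + m + 1 + L)) (e e' : ℕ) (hee : e < e')
    (he : e ∈ A x (n + m + 1 + L) (p x (n + m) (a₁ * 2 ^ m + c) + r x (n + m + 1))
      (p x (n + m) (a₁ * 2 ^ m + c) + x (n + m + 1)))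
    (he' : e' ∈ A x (n + m + 1 + L) (p x (n + m) (a₁ * 2 ^ m + c) + r x (n + m + 1))
      (p x (n + m) (a₁ * 2 ^ m + c) + x (n + m + 1)))
    (hanc : e / 2 ^ (m + 1 + L) = i) (hanc' : e' / 2 ^ (m + 1 + L) = i) :
    ∃ h, n + m + 1 ≤ h ∧ h ≤ n + m + 1 + L ∧ Bad x ζ n a₁ i h := by
  have hg := gap_loc H n m a₁ c hc
  have hge := H.gap_le (n + m)
  have hgd' := hgd
  rw [mem_A] at he he'
  obtain ⟨-, -, h2⟩ := he
  obtain ⟨-, h3, -⟩ := he'
  generalize hG : p x (n + m) (a₁ * 2 ^ m + c) = G at *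
  have hq : n + m + 1 + L = n + (m + 1 + L) := by ring
  have hM : ∀ f, f / 2 ^ (m + 1 + L) = i → f = i * 2 ^ (m + 1 + L) + f % 2 ^ (m + 1 + L) := by
    intro f hf
    have := (Nat.div_add_mod' f (2 ^ (m + 1 + L))).symm
    rw [hf] at this
    exact this
  have hE := hM e hanc
  have hE' := hM e' hanc'
  have hlt : e % 2 ^ (m + 1 + L) < 2 ^ (m + 1 + L) := Nat.mod_lt _ (by positivity)
  have hlt' : e' % 2 ^ (m + 1 + L) < 2 ^ (m + 1 + L) := Nat.mod_lt _ (by positivity)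
  generalize e % 2 ^ (m + 1 + L) = e0 at *
  generalize e' % 2 ^ (m + 1 + L) = e0' at *
  have hs := spread' H n i (m + 1 + L) e0 hlt
  have hs' := spread' H n i (m + 1 + L) e0' hlt'
  rw [← hE, ← hq] at hs
  rw [← hE', ← hq] at hs'
  have h01 : e0 < e0' := by omega
  have hrq := H.r_bounds (n + m + 1 + L)
  have ht1 : ζ (n + m + 1) ≤ ζ n / 2 := z_le' H n m
  have ht2 : ζ (n + m + 1 + L) ≤ ζ n := by
    have := z_le H n (m + 1 + L)
    rwa [← hq] at this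
  have hp3 : (0 : ℝ) < ζ n := H.zpos n
  rw [abs_le] at hs hs' hg
  have hp2 : (0 : ℝ) < 2 ^ (n + m + 1 + L) := by positivity
  -- adjacency
  have hadj : e0' = e0 + 1 := by
    by_contra hne
    have h4 : e0 + 2 ≤ e0' := by omega
    have h4' : (e0 : ℝ) + 2 ≤ e0' := by exact_mod_cast h4
    have h5 : ((e0 : ℝ) + 2) / 2 ^ (n + m + 1 + L) ≤ e0' / 2 ^ (n + m + 1 + L) :=
      div_le_div_of_nonneg_right h4' hp2.le
    have h6 : ((e0 : ℝ) + 2) / 2 ^ (n + m + 1 + L)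
        = e0 / 2 ^ (n + m + 1 + L) + 2 * (1 / 2 ^ (n + m + 1 + L)) := by ring
    rw [h6] at h5
    linarith [hs.2, hs'.1, hrq.2]
  -- the boundary level
  obtain ⟨τ, o, ho, hto⟩ := Nat.exists_eq_two_pow_mul_odd (n := e0 + 1) (by omega)
  obtain ⟨κ, rfl⟩ := ho
  have hτ : τ < m + 1 + L := by
    by_contra hcon
    push Not at hcon
    have h4 : 2 ^ (m + 1 + L) ≤ 2 ^ τ := Nat.pow_le_pow_right (by norm_num) hcon
    have h5 : 2 ^ τ * 1 ≤ 2 ^ τ * (2 * κ + 1) := Nat.mul_le_mul_left _ (by omega)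
    omega
  obtain ⟨t, ht⟩ : ∃ t, m + 1 + L = t + 1 + τ := ⟨m + L - τ, by omega⟩
  have hκ : κ < 2 ^ t := by
    by_contra hcon
    push Not at hcon
    have h4 : 2 ^ (m + 1 + L) = 2 ^ τ * (2 * 2 ^ t) := by rw [ht]; ring
    have h5 : 2 ^ τ * (2 * 2 ^ t) ≤ 2 ^ τ * (2 * κ + 1) := Nat.mul_le_mul_left _ (by omega)
    omega
  have hpow1 : 1 ≤ 2 ^ τ := Nat.one_le_two_pow
  have hi1 : i * 2 ^ (m + 1 + L) = 2 * (i * 2 ^ t) * 2 ^ τ := by rw [ht]; ring
  have heq : e = (2 * (i * 2 ^ t + κ)) * 2 ^ τ + (2 ^ τ - 1) := by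
    have h4 : (2 * (i * 2 ^ t + κ)) * 2 ^ τ = 2 * (i * 2 ^ t) * 2 ^ τ + 2 * κ * 2 ^ τ := by ring
    have h5 : 2 ^ τ * (2 * κ + 1) = 2 * κ * 2 ^ τ + 2 ^ τ := by ring
    omega
  have heq' : e' = (2 * (i * 2 ^ t + κ) + 1) * 2 ^ τ := by
    have h4 : (2 * (i * 2 ^ t + κ) + 1) * 2 ^ τ
        = (2 * (i * 2 ^ t + κ)) * 2 ^ τ + 2 ^ τ := by ring
    omega
  have hlev : n + m + 1 + L = (n + t + 1) + τ := by omega
  have hl := last_desc H (n + t + 1) (2 * (i * 2 ^ t + κ)) τ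
  have hf := first_desc (x := x) (n + t + 1) (2 * (i * 2 ^ t + κ) + 1) τ
  rw [← heq, ← hlev, p_even] at hl
  rw [← heq', ← hlev, p_odd] at hf
  rw [hl] at h2
  rw [hf] at h3
  have hsp := spread' H n i t κ hκ
  generalize hP : p x (n + t) (i * 2 ^ t + κ) = P at *
  have hxh := H.x_bounds (n + t)
  have hrh := H.r_bounds (n + t + 1)
  have ht3 : ζ (n + t + 1) ≤ ζ n / 2 := z_le' H n t
  have hk2 : (κ : ℝ) / 2 ^ (n + t) = 2 * κ / 2 ^ (n + t + 1) := by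
    rw [pow_succ]; field_simp
  rw [hk2] at hsp
  rw [abs_le] at hsp
  have hne : n + t + 1 ≠ n + m + 1 := by
    intro h4
    rw [h4] at h2 h3
    linarith
  have hmain : |p x n i - p x n a₁ - ((2 * (c : ℝ) + 1) / 2 ^ (n + m + 1)
      - (2 * (κ : ℝ) + 1) / 2 ^ (n + t + 1))| ≤ 2 * ζ n := by
    have h5 : (2 * (κ : ℝ) + 1) / 2 ^ (n + t + 1)
        = 2 * κ / 2 ^ (n + t + 1) + 1 / 2 ^ (n + t + 1) := add_div _ _ _
    rw [h5, abs_le]
    constructor <;> linarith [hg.1, hg.2, hsp.1, hsp.2, hxh.1, hxh.2, hrh.1, hrh.2]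
  rcases lt_or_gt_of_ne hne with h4 | h4
  · -- coarser boundary: bad at level `n + m + 1`
    refine ⟨n + m + 1, le_rfl, Nat.le_add_right _ _, (2 * c + 1) - (2 * κ + 1) * 2 ^ (m - t), ?_, ?_⟩
    · have : Even ((2 * (κ : ℤ) + 1) * 2 ^ (m - t)) := by
        obtain ⟨s, hs⟩ : ∃ s, m - t = s + 1 := ⟨m - t - 1, by omega⟩
        rw [hs, pow_succ, ← mul_assoc]
        exact (even_two).mul_left _
      have h6 : Odd (2 * (c : ℤ) + 1) := ⟨c, rfl⟩
      exact h6.sub_even this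
    · convert hmain using 3
      push_cast
      have h7 : (2 : ℝ) ^ (n + m + 1) = 2 ^ (n + t + 1) * 2 ^ (m - t) := by
        rw [← pow_add]; congr 1; omega
      rw [h7]
      field_simp
  · refine ⟨n + t + 1, by omega, by omega, (2 * c + 1) * 2 ^ (t - m) - (2 * κ + 1), ?_, ?_⟩
    · have : Even ((2 * (c : ℤ) + 1) * 2 ^ (t - m)) := by
        obtain ⟨s, hs⟩ : ∃ s, t - m = s + 1 := ⟨t - m - 1, by omega⟩
        rw [hs, pow_succ, ← mul_assoc]
        exact (even_two).mul_left _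
      have h6 : Odd (2 * (κ : ℤ) + 1) := ⟨κ, rfl⟩
      exact this.sub_odd h6
    · convert hmain using 3
      push_cast
      have h7 : (2 : ℝ) ^ (n + t + 1) = 2 ^ (n + m + 1) * 2 ^ (t - m) := by
        rw [← pow_add]; congr 1; omega
      rw [h7]
      field_simp


/-! ### The descent -/


end Pool.Agent.Y805.AS
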