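import Pool.Agent.Y805.AS.Gap

/-!
# The descent

Adapted from the starting file `MP_c19edd_an.CantorType`.
-/

set_option autoImplicit false

open Set Filter Topology

namespace Pool.Agent.Y805.AS

variable {x ζ : ℕ → ℝ}

theorem step2 (H : Hyp x ζ) (D L l : ℕ) (g : ℝ) (hL : 8 * ((D : ℝ) + 1) ≤ g * 2 ^ L) (u v : ℝ)
    (huv : g * ζ l ≤ v - u) (hcard : (A x (l + L) u v).card ≤ D)
    (hq : 4 * ((D : ℝ) + 1) * ζ (l + L) ≤ 1 / 2 ^ (l + L)) :
    ∃ l', l + L ≤ l' ∧ ∃ u' v', u ≤ u' ∧ v' ≤ v ∧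
      1 / (2 * ((D : ℝ) + 1)) * (1 / 2 ^ l') ≤ v' - u' ∧ (A x l' u' v').card ≤ D := by
  set q := l + L with hqdef
  have hD : (0 : ℝ) < (D : ℝ) + 1 := by positivity
  have h2q : (0 : ℝ) < 2 ^ q := by positivity
  set t : ℝ := ζ q with ht
  have htpos : 0 < t := H.zpos q
  set R : ℝ := 1 / (4 * ((D : ℝ) + 1) * t) with hR
  have hRpos : 0 < 4 * ((D : ℝ) + 1) * t := by positivity
  have hy : (2 : ℝ) ^ q ≤ R := by
    rw [hR, le_div_iff₀ hRpos]
    rw [le_div_iff₀ h2q] at hq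
    linarith
  have hy1 : (1 : ℝ) ≤ R := le_trans (one_le_pow₀ (by norm_num)) hy
  obtain ⟨l', hl1, hl2⟩ := exists_nat_pow_near hy1 (by norm_num : (1 : ℝ) < 2)
  have hql : q ≤ l' := by
    by_contra hcon
    push Not at hcon
    have : (2 : ℝ) ^ (l' + 1) ≤ 2 ^ q := pow_le_pow_right₀ (by norm_num) hcon
    linarith
  obtain ⟨M, rfl⟩ : ∃ M, l' = q + M := ⟨l' - q, by omega⟩
  have h2l : (0 : ℝ) < 2 ^ (q + M) := by positivity
  -- inverse forms
  set T : ℝ := 1 / 2 ^ (q + M) with hT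
  have hTpos : 0 < T := by positivity
  have hTt1 : 4 * ((D : ℝ) + 1) * t ≤ T := by
    rw [hT, le_div_iff₀ h2l]
    rw [hR, le_div_iff₀ hRpos] at hl1
    linarith
  have hTt2 : T ≤ 8 * ((D : ℝ) + 1) * t := by
    rw [hT, div_le_iff₀ h2l]
    rw [hR, div_lt_iff₀ hRpos, pow_succ] at hl2
    linarith
  have hlt : (2 : ℝ) ^ L * t ≤ ζ l := by
    have h := H.half' l L
    rw [le_div_iff₀ (by positivity)] at h
    rw [ht, hqdef]
    linarith
  have hg : 0 ≤ g := by
    by_contra hneg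
    push Not at hneg
    have h1 : g * 2 ^ L < 0 := mul_neg_of_neg_of_pos hneg (by positivity)
    linarith
  have hTw : T ≤ v - u := by
    have h1 : 8 * ((D : ℝ) + 1) * t ≤ g * 2 ^ L * t := mul_le_mul_of_nonneg_right hL htpos.le
    have h2 : g * (2 ^ L * t) ≤ g * ζ l := mul_le_mul_of_nonneg_left hlt hg
    linarith
  have htt : ζ (q + M) ≤ t := z_le H q M
  -- lattice points
  classical
  let pt : ℕ → ℝ := fun a => p x q a + (⌈(u - p x q a) * 2 ^ (q + M)⌉ : ℝ) / 2 ^ (q + M)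
  have hpt : ∀ (a : ℕ) (k : ℤ), u < p x q a + (k : ℝ) / 2 ^ (q + M) →
      p x q a + (k : ℝ) / 2 ^ (q + M) < u + T → p x q a + (k : ℝ) / 2 ^ (q + M) = pt a := by
    intro a k h1 h2
    have hkT : (k : ℝ) / 2 ^ (q + M) * 2 ^ (q + M) = k := by field_simp
    have hTT : T * 2 ^ (q + M) = 1 := by rw [hT]; field_simp
    have h3 : ⌈(u - p x q a) * 2 ^ (q + M)⌉ = k := by
      rw [Int.ceil_eq_iff]
      constructor
      · have : ((k : ℝ) / 2 ^ (q + M) - T) * 2 ^ (q + M) < (u - p x q a) * 2 ^ (q + M) :=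
          mul_lt_mul_of_pos_right (by linarith) h2l
        rw [sub_mul, hkT, hTT] at this
        exact this
      · have : (u - p x q a) * 2 ^ (q + M) ≤ ((k : ℝ) / 2 ^ (q + M)) * 2 ^ (q + M) :=
          mul_le_mul_of_nonneg_right (by linarith) h2l.le
        rw [hkT] at this
        exact this
    simp only [pt, h3]
  obtain ⟨u'', v'', hu'', hv'', hlen, hfree⟩ :=
    Results.MP_c19edd_an.CantorType.free_interval ((A x q u v).image pt) D
      (Finset.card_image_le.trans hcard) u (u + T) (by linarith)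
  have hlen2 : v'' - u'' = T / ((D : ℝ) + 1) := by rw [hlen]; congr 1; ring
  have hTD : 4 * t ≤ T / ((D : ℝ) + 1) := by
    rw [le_div_iff₀ hD]; linarith
  refine ⟨q + M, hql, u'' + t, v'' - t, by linarith, by linarith, ?_, ?_⟩
  · have : 1 / (2 * ((D : ℝ) + 1)) * T = T / ((D : ℝ) + 1) / 2 := by field_simp
    rw [this]
    linarith
  · refine le_trans (Finset.card_le_card_of_injOn (fun e => e / 2 ^ M) ?_ ?_) hcard
    · intro e he
      exact A_parent H q M u v _ _ (by linarith) (by linarith) e he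
    · -- injectivity
      have key : ∀ e e' : ℕ, e < e' → e ∈ A x (q + M) (u'' + t) (v'' - t) →
          e' ∈ A x (q + M) (u'' + t) (v'' - t) → e / 2 ^ M = e' / 2 ^ M → False := by
        intro e e' hee he he' hanc
        have hpar := A_parent H q M u v _ _ (by linarith) (by linarith) e he
        rw [mem_A] at he he'
        obtain ⟨-, -, h2⟩ := he
        obtain ⟨-, h3, -⟩ := he'
        have hE : e = e / 2 ^ M * 2 ^ M + e % 2 ^ M := (Nat.div_add_mod' e (2 ^ M)).symm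
        have hE' : e' = e / 2 ^ M * 2 ^ M + e' % 2 ^ M := by
          rw [hanc]; exact (Nat.div_add_mod' e' (2 ^ M)).symm
        have hlt1 : e % 2 ^ M < 2 ^ M := Nat.mod_lt _ (by positivity)
        have hlt2 : e' % 2 ^ M < 2 ^ M := Nat.mod_lt _ (by positivity)
        have hs := spread' H q (e / 2 ^ M) M (e % 2 ^ M) hlt1
        have hs' := spread' H q (e / 2 ^ M) M (e' % 2 ^ M) hlt2
        rw [← hE] at hs
        rw [← hE'] at hs'
        generalize e % 2 ^ M = e0 at *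
        generalize e' % 2 ^ M = e0' at *
        generalize e / 2 ^ M = a at *
        have h01 : e0 + 1 ≤ e0' := by omega
        have h01' : (e0 : ℝ) + 1 ≤ e0' := by exact_mod_cast h01
        have h5 : ((e0 : ℝ) + 1) / 2 ^ (q + M) ≤ e0' / 2 ^ (q + M) :=
          div_le_div_of_nonneg_right h01' h2l.le
        have hrb := H.r_bounds (q + M)
        rw [abs_le] at hs hs'
        have hy0 : ((e0 : ℝ) + 1) / 2 ^ (q + M) = e0 / 2 ^ (q + M) + T := add_div _ _ _
        have hc1 : u'' < p x q a + ((e0 : ℝ) + 1) / 2 ^ (q + M) := by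
          rw [hy0]; linarith [hs.2, hrb.2]
        have hc2 : p x q a + ((e0 : ℝ) + 1) / 2 ^ (q + M) < v'' := by
          linarith [hs'.1]
        have hk : (((e0 : ℤ) + 1 : ℤ) : ℝ) = (e0 : ℝ) + 1 := by push_cast; ring
        have hpe := hpt a ((e0 : ℤ) + 1) (by rw [hk]; linarith) (by rw [hk]; linarith)
        rw [hk] at hpe
        exact hfree (pt a) (Finset.mem_image_of_mem pt hpar) (by rw [← hpe]; exact ⟨hc1, hc2⟩)
      intro e he e' he' hanc
      rcases lt_trichotomy e e' with h | h | h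
      · exact (key e e' h he he' hanc).elim
      · exact h
      · exact (key e' e h he' he hanc.symm).elim

/-- windows of size `c / 2^n` met by at most `D` pieces of level `n` contain an interval free of
points of the achievement set -/
def Q (x : ℕ → ℝ) (D : ℕ) : Prop := ∀ c : ℝ, 0 < c → ∃ n₀ : ℕ, ∀ n, n₀ ≤ n → ∀ u v : ℝ,
  c * (1 / 2 ^ n) ≤ v - u → (A x n u v).card ≤ D →
  ∃ u' v', u ≤ u' ∧ u' < v' ∧ v' ≤ v ∧ ∀ z ∈ achSet x, z ∉ Ioo u' v'

theorem Q_succ (H : Hyp x ζ) {g : ℝ} (hg0 : 0 < g) {B : ℕ}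
    (hgap : ∀ n : ℕ, ∃ l, n ≤ l ∧ l < n + B ∧ g * ζ l ≤ x l - r x l)
    (D : ℕ) (hQ : Q x D) : Q x (D + 1) := by
  classical
  intro c hc
  set c₁ : ℝ := c / (2 * ((D : ℝ) + 1) + 1) with hc₁
  have hc₁pos : 0 < c₁ := by positivity
  -- constants
  obtain ⟨s₀, hs₀⟩ := exists_pow_lt_of_lt_one (show (0 : ℝ) < c₁ / 8 by positivity)
    (show (1 / 2 : ℝ) < 1 by norm_num)
  obtain ⟨L, hLbig⟩ : ∃ L : ℕ, 8 * ((D : ℝ) + 1) ≤ g * 2 ^ L := by
    obtain ⟨L, hL⟩ := pow_unbounded_of_one_lt (8 * ((D : ℝ) + 1) / g) (by norm_num : (1 : ℝ) < 2)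
    refine ⟨L, ?_⟩
    rw [div_lt_iff₀ hg0] at hL
    linarith
  set S : ℕ := s₀ + 2 + (D + 1) * (L + 1 + B) with hSdef
  set η : ℝ := min (c₁ / 16) (min (1 / (8 * 2 ^ S)) (1 / (4 * ((D : ℝ) + 1) * 2 ^ S))) with hη
  have hηpos : 0 < η := by positivity
  obtain ⟨n₁, hn₁⟩ := H.small η hηpos
  obtain ⟨n₂, hn₂⟩ := hQ c₁ hc₁pos
  obtain ⟨n₃, hn₃⟩ := hQ (1 / (2 * ((D : ℝ) + 1))) (by positivity)
  refine ⟨max n₁ (max n₂ n₃), fun n hn u v huv hcard => ?_⟩
  have hnn₁ : n₁ ≤ n := (le_max_left _ _).trans hn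
  have hnn₂ : n₂ ≤ n := (le_max_left _ _).trans ((le_max_right _ _).trans hn)
  have hnn₃ : n₃ ≤ n := (le_max_right _ _).trans ((le_max_right _ _).trans hn)
  have hρ : ζ n ≤ η * (1 / 2 ^ n) := hn₁ n hnn₁
  have hTn : (0 : ℝ) < 1 / 2 ^ n := by positivity
  have hz0 := H.zpos n
  have ht1 : ζ n ≤ c₁ / 16 * (1 / 2 ^ n) :=
    hρ.trans (mul_le_mul_of_nonneg_right (min_le_left _ _) hTn.le)
  have ht2 : 4 * ζ n < 1 / 2 ^ (n + S) := by
    have h1 : ζ n ≤ 1 / (8 * 2 ^ S) * (1 / 2 ^ n) :=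
      hρ.trans (mul_le_mul_of_nonneg_right ((min_le_right _ _).trans (min_le_left _ _)) hTn.le)
    have h2 : (1 : ℝ) / (8 * 2 ^ S) * (1 / 2 ^ n) = 1 / 2 ^ (n + S) / 8 := by
      rw [pow_add, div_div, div_mul_div_comm, one_mul]
      congr 1
      ring
    have h3 : (0 : ℝ) < 1 / 2 ^ (n + S) := by positivity
    rw [h2] at h1
    linarith
  have ht3 : 4 * ((D : ℝ) + 1) * ζ n ≤ 1 / 2 ^ (n + S) := by
    have h1 : ζ n ≤ 1 / (4 * ((D : ℝ) + 1) * 2 ^ S) * (1 / 2 ^ n) :=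
      hρ.trans (mul_le_mul_of_nonneg_right ((min_le_right _ _).trans (min_le_right _ _)) hTn.le)
    have h2 : 4 * ((D : ℝ) + 1) * (1 / (4 * ((D : ℝ) + 1) * 2 ^ S) * (1 / 2 ^ n)) =
        1 / 2 ^ (n + S) := by
      have hD : (D : ℝ) + 1 ≠ 0 := by positivity
      rw [pow_add, one_div_mul_one_div, mul_one_div, div_eq_div_iff (by positivity) (by positivity)]
      ring
    calc 4 * ((D : ℝ) + 1) * ζ n
        ≤ 4 * ((D : ℝ) + 1) * (1 / (4 * ((D : ℝ) + 1) * 2 ^ S) * (1 / 2 ^ n)) :=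
          mul_le_mul_of_nonneg_left h1 (by positivity)
      _ = _ := h2
  have huv' : u < v := by
    have : 0 < c * (1 / 2 ^ n) := by positivity
    linarith
  -- trim
  obtain ⟨u₁, v₁, hu₁, hv₁, hlen₁, hfree₁⟩ := Results.MP_c19edd_an.CantorType.free_interval
    ((A x n u v).image (fun a => p x n a) ∪ (A x n u v).image (fun a => p x n a + r x n))
    (2 * (D + 1))
    (by
      refine (Finset.card_union_le _ _).trans ?_
      have h1 := Finset.card_image_le (s := A x n u v) (f := fun a => p x n a)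
      have h2 := Finset.card_image_le (s := A x n u v) (f := fun a => p x n a + r x n)
      omega) u v huv'
  have hlen₁' : c₁ * (1 / 2 ^ n) ≤ v₁ - u₁ := by
    rw [hlen₁, hc₁]
    push_cast
    rw [div_mul_eq_mul_div]
    exact div_le_div_of_nonneg_right huv (by positivity)
  have huv₁ : u₁ < v₁ := by
    have : 0 < c₁ * (1 / 2 ^ n) := by positivity
    linarith
  have hsub : A x n u₁ v₁ ⊆ A x n u v := by
    intro a ha
    rw [mem_A] at ha ⊢
    exact ⟨ha.1, by linarith [ha.2.1], by linarith [ha.2.2]⟩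
  by_cases hsmall : (A x n u₁ v₁).card ≤ D
  · obtain ⟨u', v', h1, h2, h3, h4⟩ := hn₂ n hnn₂ u₁ v₁ hlen₁' hsmall
    exact ⟨u', v', by linarith, h2, by linarith, h4⟩
  push Not at hsmall
  have hne : (A x n u₁ v₁).Nonempty := Finset.card_pos.1 (by omega)
  obtain ⟨a₁, ha₁⟩ := hne
  have hI : ((A x n u₁ v₁).erase a₁).card ≤ D := by
    rw [Finset.card_erase_of_mem ha₁]
    have := Finset.card_le_card hsub
    omega
  -- the piece a₁ contains the window
  have ha₁' := ha₁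
  rw [mem_A] at ha₁'
  have hp1 : p x n a₁ ≤ u₁ := by
    by_contra hcon
    push Not at hcon
    exact hfree₁ (p x n a₁) (Finset.mem_union_left _ (Finset.mem_image_of_mem _ (hsub ha₁)))
      ⟨hcon, ha₁'.2.1⟩
  have hp2 : v₁ ≤ p x n a₁ + r x n := by
    by_contra hcon
    push Not at hcon
    exact hfree₁ (p x n a₁ + r x n) (Finset.mem_union_right _
      (Finset.mem_image_of_mem (fun a => p x n a + r x n) (hsub ha₁))) ⟨ha₁'.2.2, hcon⟩
  -- good levels, one in every block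
  have hlev : ∀ j : ℕ, ∃ m : ℕ, s₀ + j * (L + 1 + B) ≤ m ∧ m < s₀ + j * (L + 1 + B) + B ∧
      g * ζ (n + m + 1) ≤ x (n + m + 1) - r x (n + m + 1) := by
    intro j
    obtain ⟨l, h1, h2, h3⟩ := hgap (n + (s₀ + j * (L + 1 + B)) + 1)
    obtain ⟨m, rfl⟩ : ∃ m, l = n + m + 1 := ⟨l - n - 1, by omega⟩
    exact ⟨m, by omega, by omega, h3⟩
  choose μ hμ1 hμ2 hμ3 using hlev
  -- a block of levels free of bad indices
  obtain ⟨j, hj, hgood⟩ : ∃ j, j ≤ D ∧ ∀ i ∈ (A x n u₁ v₁).erase a₁, ∀ h,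
      n + μ j + 1 ≤ h → h ≤ n + μ j + 1 + L → ¬ Bad x ζ n a₁ i h := by
    by_contra hcon
    push Not at hcon
    have hex : ∀ j ∈ Finset.range (D + 1), ∃ i ∈ (A x n u₁ v₁).erase a₁, ∃ h,
        n + μ j + 1 ≤ h ∧ h ≤ n + μ j + 1 + L ∧ Bad x ζ n a₁ i h :=
      fun j hj => hcon j (by have := Finset.mem_range.1 hj; omega)
    choose! f hf hf2 hf3 hf4 hf5 using hex
    have hcardlt : ((A x n u₁ v₁).erase a₁).card < (Finset.range (D + 1)).card := by
      rw [Finset.card_range]; omega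
    obtain ⟨i, hi, k, hk, hik, heq⟩ := Finset.exists_ne_map_eq_of_card_lt_of_maps_to hcardlt
      (f := f) (fun a ha => hf a ha)
    have hmono : ∀ i k : ℕ, i < k → k ∈ Finset.range (D + 1) → i ∈ Finset.range (D + 1) →
        f i = f k → False := by
      intro i k hik hk hi heq
      have h1 : (i + 1) * (L + 1 + B) ≤ k * (L + 1 + B) := Nat.mul_le_mul_right _ hik
      have h2 : k * (L + 1 + B) ≤ D * (L + 1 + B) := by
        have := Finset.mem_range.1 hk
        exact Nat.mul_le_mul_right _ (by omega)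
      have h3 := hf4 i hi
      have h4 := hf3 k hk
      have h5 := hf4 k hk
      have h6 := hf5 i hi
      have h7 := hf5 k hk
      have k1 := hμ2 i
      have k2 := hμ1 k
      have k3 := hμ2 k
      rw [← heq] at h7
      have h8 : (i + 1) * (L + 1 + B) = i * (L + 1 + B) + (L + 1 + B) := by ring
      have h9 : (D + 1) * (L + 1 + B) = D * (L + 1 + B) + (L + 1 + B) := by ring
      exact Bad_unique n a₁ (f i) (hf2 i) (hf2 k) (n + S) (by omega) (by omega) ht2 h6 h7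
    rcases lt_or_gt_of_ne hik with h | h
    · exact hmono i k h hk hi heq
    · exact hmono k i h hi hk heq.symm
  obtain ⟨m, hm⟩ : ∃ m, m = μ j := ⟨_, rfl⟩
  have hgd := hμ3 j
  have hm1 := hμ1 j
  have hm2 := hμ2 j
  rw [← hm] at hgood hgd hm1 hm2
  have hms : s₀ ≤ m := (Nat.le_add_right _ _).trans hm1
  have hqS : n + m + 1 + L ≤ n + S := by
    have h2 : j * (L + 1 + B) ≤ D * (L + 1 + B) := Nat.mul_le_mul_right _ hj
    have h9 : (D + 1) * (L + 1 + B) = D * (L + 1 + B) + (L + 1 + B) := by ring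
    omega
  have hpow : (1 : ℝ) / 2 ^ (n + S) ≤ 1 / 2 ^ (n + m + 1 + L) :=
    one_div_le_one_div_of_le (by positivity) (pow_le_pow_right₀ (by norm_num) hqS)
  have hpow' : (1 : ℝ) / 2 ^ (n + m + 1 + L) ≤ 1 / 2 ^ (n + m + 1) :=
    one_div_le_one_div_of_le (by positivity) (pow_le_pow_right₀ (by norm_num) (Nat.le_add_right _ _))
  have ht0 : 0 < ζ n := hz0
  -- size of 2^{-(n+m+1)}
  have hsz : (1 : ℝ) / 2 ^ (n + m + 1) ≤ c₁ / 8 * (1 / 2 ^ n) := by
    have h1 : (1 : ℝ) / 2 ^ (n + m + 1) = (1 / 2) ^ (m + 1) * (1 / 2 ^ n) := by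
      rw [div_pow, one_pow, add_assoc, pow_add]; field_simp
    have h2 : (1 / 2 : ℝ) ^ (m + 1) ≤ (1 / 2) ^ s₀ :=
      pow_le_pow_of_le_one (by norm_num) (by norm_num) (by omega)
    rw [h1]
    exact mul_le_mul_of_nonneg_right (h2.trans hs₀.le) hTn.le
  -- choice of the gap
  set mid := (u₁ + v₁) / 2 with hmid
  have hmid0 : 0 ≤ (mid - p x n a₁) * 2 ^ (n + m) := by
    have : 0 ≤ mid - p x n a₁ := by rw [hmid]; linarith
    positivity
  set k := ⌊(mid - p x n a₁) * 2 ^ (n + m)⌋₊ with hk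
  have hk1 : (k : ℝ) ≤ (mid - p x n a₁) * 2 ^ (n + m) := Nat.floor_le hmid0
  have hk2 : (mid - p x n a₁) * 2 ^ (n + m) < k + 1 := Nat.lt_floor_add_one _
  have h2nm : (0 : ℝ) < 2 ^ (n + m) := by positivity
  have hk1' : (k : ℝ) / 2 ^ (n + m) ≤ mid - p x n a₁ := by rw [div_le_iff₀ h2nm]; exact hk1
  have hk2' : mid - p x n a₁ < ((k : ℝ) + 1) / 2 ^ (n + m) := by rw [lt_div_iff₀ h2nm]; exact hk2
  have hrb := H.r_bounds n
  have hkm : k < 2 ^ m := by
    have h1 : mid - p x n a₁ < 1 / 2 ^ n := by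
      rw [hmid]; linarith [hrb.2]
    have h2 : (mid - p x n a₁) * 2 ^ (n + m) < 1 / 2 ^ n * 2 ^ (n + m) :=
      mul_lt_mul_of_pos_right h1 h2nm
    have h3 : (1 : ℝ) / 2 ^ n * 2 ^ (n + m) = 2 ^ m := by rw [pow_add]; field_simp
    have h4 : (k : ℝ) < 2 ^ m := by linarith
    exact_mod_cast h4
  have hloc := gap_loc H n m a₁ k hkm
  have hge := H.gap_le (n + m)
  have htl : ζ (n + m + 1) ≤ ζ n / 2 := z_le' H n m
  have htl0 : 0 < ζ (n + m + 1) := H.zpos _
  have hgd0 : 0 ≤ x (n + m + 1) - r x (n + m + 1) := le_trans (by positivity) hgd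
  have hsplit : (2 * (k : ℝ) + 1) / 2 ^ (n + m + 1) = k / 2 ^ (n + m) + 1 / 2 ^ (n + m + 1) := by
    rw [pow_succ]; field_simp
  have hsplit2 : ((k : ℝ) + 1) / 2 ^ (n + m) = k / 2 ^ (n + m) + 2 * (1 / 2 ^ (n + m + 1)) := by
    rw [pow_succ]; field_simp
  rw [hsplit, abs_le] at hloc
  rw [hsplit2] at hk2'
  set G := p x (n + m) (a₁ * 2 ^ m + k) + r x (n + m + 1) with hG
  set G' := p x (n + m) (a₁ * 2 ^ m + k) + x (n + m + 1) with hG'
  have hgg : G' - G = x (n + m + 1) - r x (n + m + 1) := by rw [hG, hG']; ring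
  have hgu : u₁ ≤ G := by
    have : mid - u₁ = (v₁ - u₁) / 2 := by rw [hmid]; ring
    linarith [hloc.1]
  have hgv : G' ≤ v₁ := by
    have : v₁ - mid = (v₁ - u₁) / 2 := by rw [hmid]; ring
    linarith [hloc.2]
  -- number of pieces meeting the gap
  have hcardW : (A x (n + m + 1 + L) G G').card ≤ D := by
    refine le_trans (Finset.card_le_card_of_injOn (fun e => e / 2 ^ (m + 1 + L)) ?_ ?_) hI
    · intro e he
      have he1 : e ∈ A x (n + m + 1 + L) G G' := he
      rw [Finset.mem_coe, Finset.mem_erase]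
      constructor
      · intro hanc
        refine gap_own H n m L a₁ k hkm ?_ e he1 ?_
        · linarith
        · rw [Nat.div_div_eq_div_mul, ← pow_add, show L + (m + 1) = m + 1 + L by ring]
          exact hanc
      · have := A_parent H n (m + 1 + L) u₁ v₁ G G' hgu hgv e
          (by rw [show n + (m + 1 + L) = n + m + 1 + L by ring]; exact he1)
        exact this
    · have key : ∀ e e' : ℕ, e < e' → e ∈ A x (n + m + 1 + L) G G' →
          e' ∈ A x (n + m + 1 + L) G G' → e / 2 ^ (m + 1 + L) = e' / 2 ^ (m + 1 + L) → False := by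
        intro e e' hee he he' hanc
        have hpar := A_parent H n (m + 1 + L) u₁ v₁ G G' hgu hgv e
          (by rw [show n + (m + 1 + L) = n + m + 1 + L by ring]; exact he)
        have hne : e / 2 ^ (m + 1 + L) ≠ a₁ := by
          intro h
          refine gap_own H n m L a₁ k hkm ?_ e he ?_
          · linarith
          · rw [Nat.div_div_eq_div_mul, ← pow_add, show L + (m + 1) = m + 1 + L by ring]
            exact h
        obtain ⟨h, hh1, hh2, hh3⟩ := gap_two H n m L a₁ k (e / 2 ^ (m + 1 + L)) hkm hgd0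
          (by linarith) e e' hee he he' rfl hanc.symm
        exact hgood _ (Finset.mem_erase.2 ⟨hne, hpar⟩) h hh1 hh2 hh3
      intro e he e' he' hanc
      rcases lt_trichotomy e e' with h | h | h
      · exact (key e e' h he he' hanc).elim
      · exact h
      · exact (key e' e h he' he hanc.symm).elim
  obtain ⟨l', hl', u', v', hu', hv', hlen', hcard'⟩ := step2 H D L (n + m + 1) g hLbig G G'
    (by rw [hgg]; exact hgd) hcardW
    (by
      have h1 : ζ (n + m + 1 + L) ≤ ζ n := by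
        have := z_le H n (m + 1 + L)
        rwa [show n + (m + 1 + L) = n + m + 1 + L by ring] at this
      have h2 : 4 * ((D : ℝ) + 1) * ζ (n + m + 1 + L) ≤ 4 * ((D : ℝ) + 1) * ζ n :=
        mul_le_mul_of_nonneg_left h1 (by positivity)
      linarith)
  obtain ⟨u'', v'', h1, h2, h3, h4⟩ := hn₃ l' (by omega) u' v' hlen' hcard'
  exact ⟨u'', v'', by linarith, h2, by linarith, h4⟩

end Pool.Agent.Y805.AS
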